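import Pool.Agent.H73.CBD.Stmts

/-!
Row HCD of board `cbd` (MP_e1af46): `H` is of class `C¹`.
-/

set_option autoImplicit false

open Set Filter Topology

namespace Pool.CBD

theorem HCD_thm (h1 : HFDStmt) (h2 : HHLStmt) : HCDStmt := by
  unfold HCDStmt
  rw [contDiff_one_iff_fderiv]
  refine ⟨fun z => (h1 z).1, ?_⟩
  obtain ⟨α, hα, hH⟩ := h2
  rw [continuous_iff_continuousAt]
  intro z
  obtain ⟨C, hC⟩ := hH (‖z‖ + 1)
  rw [ContinuousAt, tendsto_iff_norm_sub_tendsto_zero]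
  have hlim : Tendsto (fun w : V => C * ‖w - z‖ ^ α) (𝓝 z) (𝓝 0) := by
    have h3 : Tendsto (fun w : V => ‖w - z‖) (𝓝 z) (𝓝 0) := tendsto_norm_sub_self z
    have h4 : Tendsto (fun w : V => ‖w - z‖ ^ α) (𝓝 z) (𝓝 0) := by
      have h5 := h3.rpow_const (p := α) (Or.inr hα.le)
      rwa [Real.zero_rpow hα.ne'] at h5
    simpa using h4.const_mul C
  have hev : ∀ᶠ w in 𝓝 z, ‖fderiv ℝ H w - fderiv ℝ H z‖ ≤ C * ‖w - z‖ ^ α := by
    filter_upwards [Metric.ball_mem_nhds z one_pos] with w hw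
    refine hC w z ?_ (by linarith)
    have h6 : ‖w - z‖ < 1 := by rwa [← dist_eq_norm]
    have h7 : ‖w‖ ≤ ‖z‖ + ‖w - z‖ := by
      have := norm_add_le z (w - z)
      simpa using this
    linarith
  exact squeeze_zero' (Eventually.of_forall fun w => norm_nonneg _) hev hlim

end Pool.CBD
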